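import Pool.Agent.V8H73.NK2.MainA

set_option autoImplicit false

/-!
# Positive cones of dimension groups: neither of the two classes contains the other

The first group. Over the field with five elements let `P 1`, `P 2`, `P 3` be the diagonal four by
four idempotents with diagonals `(1, 1, 0, 0)`, `(1, 0, 1, 0)`, `(1, 0, 0, 1)` and let `P 0` be an
idempotent of rank two such that for `k = 1, 2, 3` the matrices `P 0` and `P k` commute with a matrix
`Z k` whose square is `2`, which is not a square in the field. Let `I` be the disjoint union of sets
`Ω 0`, `Ω 1`, `Ω 2`, `Ω 3` of cardinalities `ℵ₁`, `ℵ₂`, `ℵ₃`, `ℵ₄`. The ring consists of the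
functions `f` on the set of all subsets `t` of `I` with values in the four by four matrices, that
depend on finitely many coordinates, such that `f t` commutes with every matrix `y` that commutes
with `P k` for all `k` for which `t` meets `Ω k`, and that is equal to `Z k` for all `k = 1, 2, 3`
for which `t` meets both `Ω 0` and `Ω k`. Every finite subset lies in a finite semisimple subring. If
`V` of this ring is `V(A)` for a C*-algebra `A` of real rank zero, then a free quadruple for set
mappings yields four projections `q 0`, ..., `q 3` in a quotient of a corner of `A` such that, for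
`k = 1, 2, 3`, the compressions of `q k` by `q 0` and by its complement are scalars (parity of ranks),
`q 1`, `q 2`, `q 3` commute, the product of `q 1` and the complement of `q 2` and the product of
`q 1`, `q 2`, `q 3` are not zero, and the product of the three complements is zero. This is
impossible in an algebra over the complex numbers.

The second group is the Grothendieck group of `V(A)` for the C*-algebra `A` of the earlier theorem
`Pool.Agent.Y78.NK.main`: `A` consists of sections over a zero-dimensional compact space with
semisimple fibres, and this implies that `V(A)` is cancellative and unperforated and has the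
refinement property.
-/

universe u

open Pool.Agent.H494R3.NK Pool.Agent.V8H73.NK2 in
/-- There is a dimension group whose positive cone is isomorphic to `V(R)` for a von Neumann regular
ring `R` but not to `V(A)` for any C*-algebra `A` of real rank zero, and there is a dimension group
whose positive cone is isomorphic to `V(A)` for a C*-algebra `A` of real rank zero but not to `V(R)`
for any von Neumann regular ring `R`. -/
theorem Pool.Agent.Results.MP_53c861_al.DimensionGroups.result :
    (∃ (G : Type) (_ : AddCommGroup G) (_ : PartialOrder G) (_ : IsOrderedAddMonoid G),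
      IsDimensionGroup G ∧
      (∃ (R : Type) (_ : Ring R), (∀ x : R, ∃ y : R, x * y * x = x) ∧
        Nonempty (VV R ≃+ AddSubmonoid.nonneg G)) ∧
      ∀ (A : Type u) [NonUnitalCStarAlgebra A], RealRankZero A →
        ¬ Nonempty (VV A ≃+ AddSubmonoid.nonneg G)) ∧
    ∃ (G : Type) (_ : AddCommGroup G) (_ : PartialOrder G) (_ : IsOrderedAddMonoid G),
      IsDimensionGroup G ∧
      (∃ (A : Type) (_ : CStarAlgebra A), RealRankZero A ∧
        Nonempty (VV A ≃+ AddSubmonoid.nonneg G)) ∧
      ∀ (R : Type u) [NonUnitalRing R], (∀ x : R, ∃ y : R, x * y * x = x) →
        ¬ Nonempty (VV R ≃+ AddSubmonoid.nonneg G) := by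
  constructor
  · obtain ⟨R, _, hR, hg, hA⟩ := mainR.{u}
    obtain ⟨G, _, _, _, hG, ⟨e⟩⟩ := exists_dimensionGroup hg fun a b h => (VV.conical a b h).1
    refine ⟨G, inferInstance, inferInstance, inferInstance, hG, ⟨R, inferInstance, hR, ⟨e⟩⟩, ?_⟩
    rintro A _ hA0 ⟨e'⟩
    exact hA A hA0 ⟨e'.trans e.symm⟩
  · obtain ⟨A, _, hA, hg, hR⟩ := mainA.{u}
    obtain ⟨G, _, _, _, hG, ⟨e⟩⟩ := exists_dimensionGroup hg fun a b h => (VV.conical a b h).1
    refine ⟨G, inferInstance, inferInstance, inferInstance, hG, ⟨A, inferInstance, hA, ⟨e⟩⟩, ?_⟩
    rintro R _ hR0 ⟨e'⟩
    exact hR R hR0 ⟨e.trans e'.symm⟩
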